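import Mathlib

namespace Pool.Agent.Results.MP_be9f3f_co.Cayley

/-- A graph: a reflexive symmetric relation. -/
structure RGraph (V : Type) where
  E : V → V → Prop
  refl : ∀ a, E a a
  symm : ∀ a b, E a b → E b a

variable {V W : Type}

def IsHom (A : RGraph V) (B : RGraph W) (f : V → W) : Prop := ∀ a b, A.E a b → B.E (f a) (f b)

def IsEpi (A : RGraph V) (B : RGraph W) (f : V → W) : Prop :=
  IsHom A B f ∧ Function.Surjective f ∧ ∀ c d, B.E c d → ∃ a b, A.E a b ∧ f a = c ∧ f b = d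

def Conn (A : RGraph V) (S : Set V) : Prop :=
  ¬ ∃ P Q : Set V, P.Nonempty ∧ Q.Nonempty ∧ P ∪ Q = S ∧ ∀ p ∈ P, ∀ q ∈ Q, ¬ A.E p q

/-- `C` is a maximal connected subset of `S`. -/
def IsComp (A : RGraph V) (S C : Set V) : Prop :=
  C ⊆ S ∧ Conn A C ∧ ∀ D, C ⊆ D → D ⊆ S → Conn A D → D = C

def Confluent (A : RGraph V) (B : RGraph W) (f : V → W) : Prop :=
  ∀ Q, Conn B Q → ∀ C, IsComp A (f ⁻¹' Q) C → f '' C = Q

/-- Vertex-transitive: automorphisms are injective epimorphisms `A → A`. -/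
def Homog (A : RGraph V) : Prop :=
  ∀ x y, ∃ g : V → V, IsEpi A A g ∧ Function.Injective g ∧ g x = y

theorem conn_single (A : RGraph V) (x : V) : Conn A {x} := by
  rintro ⟨P, Q, ⟨p, hp⟩, ⟨q, hq⟩, h, hn⟩
  have h1 : p = x := (h ▸ Or.inl hp : p ∈ ({x} : Set V))
  have h2 : q = x := (h ▸ Or.inr hq : q ∈ ({x} : Set V))
  exact hn p hp q hq (by rw [h1, h2]; exact A.refl x)

theorem conn_insert (A : RGraph V) {C : Set V} (hC : Conn A C) {g h : V} (hg : g ∈ C)
    (e : A.E g h) : Conn A (insert h C) := by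
  have main : ∀ P Q : Set V, Q.Nonempty → P ∪ Q = insert h C → (∀ p ∈ P, ∀ q ∈ Q, ¬ A.E p q) →
      g ∈ P → False := by
    rintro P Q ⟨q, hq⟩ hu hn hP
    refine hC ⟨P ∩ C, Q ∩ C, ⟨g, hP, hg⟩, ⟨q, hq, ?_⟩, ?_, fun p hp q hq => hn p hp.1 q hq.1⟩
    · rcases (hu ▸ Or.inr hq : q ∈ insert h C) with rfl | h
      · exact absurd e (hn g hP q hq)
      · exact h
    · rw [← Set.union_inter_distrib_right, hu]
      exact Set.inter_eq_right.2 (Set.subset_insert _ _)
  rintro ⟨P, Q, hP, hQ, hu, hn⟩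
  rcases (hu.symm ▸ Set.mem_insert_of_mem h hg : g ∈ P ∪ Q) with h1 | h1
  · exact main P Q hQ hu hn h1
  · exact main Q P hP (Set.union_comm _ _ ▸ hu) (fun p hp q hq e => hn q hq p hp (A.symm _ _ e)) h1

/-- A locally surjective homomorphism onto the vertices is confluent. -/
theorem confl (A : RGraph V) (B : RGraph W) (f : V → W) (hs : Function.Surjective f)
    (hl : ∀ g b, B.E (f g) b → ∃ h, A.E g h ∧ f h = b) : Confluent A B f := by
  rintro Q hQ C ⟨h1, h2, h3⟩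
  apply Set.Subset.antisymm (Set.image_subset_iff.2 h1)
  intro q hq
  by_contra hn
  refine hQ ⟨f '' C, Q \ f '' C, ?_, ⟨q, hq, hn⟩, Set.union_diff_cancel (Set.image_subset_iff.2 h1), ?_⟩
  · rcases C.eq_empty_or_nonempty with rfl | h
    · obtain ⟨x, rfl⟩ := hs q
      have := h3 {x} (Set.empty_subset _) (Set.singleton_subset_iff.2 hq) (conn_single A x)
      exact absurd this (Set.singleton_ne_empty x)
    · exact h.image f
  · rintro _ ⟨g, hg, rfl⟩ b hb e
    obtain ⟨h, e', rfl⟩ := hl g b e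
    have := h3 (insert h C) (Set.subset_insert _ _) (Set.insert_subset hb.1 h1)
      (conn_insert A h2 hg e')
    exact hb.2 ⟨h, this ▸ Set.mem_insert h C, rfl⟩

open Equiv

variable [DecidableEq V]

def gens (H : RGraph V) : Set (Perm V) := {s | ∃ a b, H.E a b ∧ s = swap a b}

abbrev Gam (H : RGraph V) := Subgroup.closure (gens H)

def cay (H : RGraph V) (v : V) : RGraph (Gam H) where
  E g h := ∃ a b, H.E a b ∧ h.1 = swap a b * g.1
  refl g := ⟨v, v, H.refl v, by simp; rfl⟩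
  symm g h := by
    rintro ⟨a, b, e, h⟩
    exact ⟨a, b, e, by rw [h, swap_mul_self_mul]⟩

theorem cay_conn (H : RGraph V) (v : V) : Conn (cay H v) Set.univ := by
  have main : ∀ P Q : Set (Gam H), Q.Nonempty → P ∪ Q = Set.univ →
      (∀ p ∈ P, ∀ q ∈ Q, ¬ (cay H v).E p q) → 1 ∈ P → False := by
    rintro P Q ⟨q, hq⟩ hu hn hP
    have step : ∀ g ∈ P, ∀ h, (cay H v).E g h → h ∈ P := fun g hg h e =>
      (hu.symm ▸ Set.mem_univ h : h ∈ P ∪ Q).resolve_right fun hh => hn g hg h hh e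
    have all : ∀ x (hx : x ∈ Gam H), (⟨x, hx⟩ : Gam H) ∈ P := by
      intro x hx
      induction hx using Subgroup.closure_induction_left with
      | one => exact hP
      | mul_left s hs y hy ih =>
        obtain ⟨a, b, e, rfl⟩ := hs
        exact step _ ih _ ⟨a, b, e, rfl⟩
      | inv_mul_cancel s hs y hy ih =>
        obtain ⟨a, b, e, rfl⟩ := hs
        exact step _ ih _ ⟨a, b, e, by simp⟩
    exact hn q (all q.1 q.2) q hq ((cay H v).refl q)
  rintro ⟨P, Q, hP, hQ, hu, hn⟩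
  rcases (hu.symm ▸ Set.mem_univ 1 : (1 : Gam H) ∈ P ∪ Q) with h1 | h1
  · exact main P Q hQ hu hn h1
  · exact main Q P hP (Set.union_comm _ _ ▸ hu)
      (fun p hp q hq e => hn q hq p hp ((cay H v).symm _ _ e)) h1

theorem cay_homog (H : RGraph V) (v : V) : Homog (cay H v) := by
  intro x y
  have hom : ∀ t : Gam H, IsHom (cay H v) (cay H v) (· * t) := by
    rintro t g h ⟨a, b, e, hh⟩
    exact ⟨a, b, e, by simp [hh, mul_assoc]⟩
  refine ⟨(· * (x⁻¹ * y)), ⟨hom _, mul_right_surjective _, fun c d e => ?_⟩,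
    mul_left_injective _, by simp⟩
  exact ⟨_, _, hom (x⁻¹ * y)⁻¹ c d e, inv_mul_cancel_right _ _, inv_mul_cancel_right _ _⟩

theorem result (V : Type) [Fintype V] (H : RGraph V) (hH : Conn H Set.univ) :
    ∃ (W : Type) (_ : Fintype W) (G : RGraph W) (f : W → V),
      Conn G Set.univ ∧ Homog G ∧ IsEpi G H f ∧ Confluent G H f := by
  classical
  rcases isEmpty_or_nonempty V with hV | ⟨⟨v⟩⟩
  · exact ⟨V, inferInstance, H, id, hH, fun x => hV.elim x,
      ⟨fun a => hV.elim a, Function.surjective_id, fun a => hV.elim a⟩,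
      confl H H id Function.surjective_id fun a => hV.elim a⟩
  let f : Gam H → V := fun g => g.1 v
  have hl : ∀ g b, H.E (f g) b → ∃ h, (cay H v).E g h ∧ f h = b := fun g b e =>
    ⟨⟨swap (f g) b, Subgroup.subset_closure ⟨_, _, e, rfl⟩⟩ * g, ⟨_, _, e, rfl⟩, by simp [f]⟩
  have hs : Function.Surjective f := by
    intro q
    by_contra hn
    refine hH ⟨Set.range f, (Set.range f)ᶜ, ⟨_, 1, rfl⟩, ⟨q, hn⟩, Set.union_compl_self _, ?_⟩
    rintro _ ⟨g, rfl⟩ b hb e
    obtain ⟨h, -, rfl⟩ := hl g b e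
    exact hb ⟨h, rfl⟩
  refine ⟨Gam H, Fintype.ofFinite _, cay H v, f, cay_conn H v, cay_homog H v, ⟨?_, hs, ?_⟩,
    confl _ _ f hs hl⟩
  · rintro g h ⟨a, b, e, hh⟩
    simp only [f, hh, Perm.mul_apply, swap_apply_def]
    split_ifs with h1 h2
    · rw [h1]; exact e
    · rw [h2]; exact H.symm _ _ e
    · exact H.refl _
  · intro c d e
    obtain ⟨g, rfl⟩ := hs c
    obtain ⟨h, e', rfl⟩ := hl g d e
    exact ⟨g, h, e', rfl, rfl⟩

end Pool.Agent.Results.MP_be9f3f_co.Cayley
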